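import Pool.Agent.T6.H85.SetPart.Count

set_option autoImplicit false

open Finset Filter Topology

namespace Pool.Agent.T6.H85.SetPart

/-- the normalised logarithm of the number of avoiders -/
noncomputable def F {k : ℕ} (τ : Setoid (Fin k)) (n : ℕ) : ℝ :=
  Real.log (A τ n) / (n * Real.log n)

theorem fib_log {m n k : ℕ} (hk : 3 ≤ k) (τ : Setoid (Fin k)) (hτ : τ ≠ ⊤) (hm : 1 ≤ m)
    (hn : 1 ≤ n) (lm : ℝ) (h0 : 0 ≤ lm) (h1 : lm ≤ 1)
    (hlm : (1 - lm) * Real.log n = ((k : ℝ) - 3) / ((k : ℝ) - 2) * Real.log ((m * n : ℕ) : ℝ))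
    (X Y : Finset (Fin (m * n))) :
    (Nat.card (Fib (m := m) (n := n) τ X Y) : ℝ) ≤
      Real.exp ((1 - lm) * (m * n : ℕ) * Real.log n +
        ((k - 1) * (k * m ^ (k - 1)) : ℕ) * Real.log ((m * n : ℕ) : ℝ) +
        lm * m * Real.log (A τ n)) := by
  classical
  rcases Nat.eq_zero_or_pos (Nat.card (Fib (m := m) (n := n) τ X Y)) with h | h
  · rw [h]; simp only [Nat.cast_zero]; positivity
  have hne : Nonempty (Fib (m := m) (n := n) τ X Y) := (Nat.card_pos_iff.1 h).1
  obtain ⟨s, hs, hX, hY⟩ := hne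
  have hq := card_repI_repB (by omega : 2 ≤ k) s τ hτ hs
  rw [hX, hY] at hq
  have hsub : Y ⊆ X := by
    have := repB_subset s
    rwa [hX, hY] at this
  have hcs : (X \ Y).card = X.card - Y.card := card_sdiff_of_subset hsub
  have hYX : Y.card ≤ X.card := card_le_card hsub
  have hXn : X.card ≤ m * n := by
    have := card_le_univ X
    rwa [Fintype.card_fin] at this
  have f1 := fib_one (m := m) (n := n) τ X Y
  have f2 := fib_two (m := m) (n := n) τ X Y
  set c := Nat.card (Fib (m := m) (n := n) τ X Y) with hc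
  set q := X.card with hqd
  set b := Y.card with hbd
  set N := m * n with hN
  have hNpos : 0 < N := by positivity
  have hcpos : (0 : ℝ) < c := by exact_mod_cast h
  have hApos : 0 < A τ n := by
    rcases Nat.eq_zero_or_pos (A τ n) with h' | h'
    · rw [h'] at f2
      rw [zero_pow (by omega), zero_mul] at f2
      omega
    · exact h'
  have hlogN : 0 ≤ Real.log (N : ℝ) := Real.log_natCast_nonneg _
  have hlogn : 0 ≤ Real.log (n : ℝ) := Real.log_natCast_nonneg _
  have hnR : (0 : ℝ) < n := by exact_mod_cast hn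
  have hNR : (0 : ℝ) < N := by exact_mod_cast hNpos
  have g1 : Real.log c ≤ ((N : ℝ) - q) * Real.log n + ((q : ℝ) - b) * Real.log N := by
    have : (c : ℝ) ≤ (n : ℝ) ^ (N - q) * (N : ℝ) ^ (q - b) := by
      rw [hcs] at f1; exact_mod_cast f1
    have h2 := Real.log_le_log hcpos this
    rw [Real.log_mul (by positivity) (by positivity), Real.log_pow, Real.log_pow,
      Nat.cast_sub hXn, Nat.cast_sub hYX] at h2
    exact h2
  have g2 : Real.log c ≤ m * Real.log (A τ n) + ((q : ℝ) - b) * Real.log N := by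
    have hA' : (0 : ℝ) < A τ n := by exact_mod_cast hApos
    have : (c : ℝ) ≤ (A τ n : ℝ) ^ m * (N : ℝ) ^ (q - b) := by
      rw [hcs] at f2; exact_mod_cast f2
    have h2 := Real.log_le_log hcpos this
    rw [Real.log_mul (by positivity) (by positivity), Real.log_pow, Real.log_pow,
      Nat.cast_sub hYX] at h2
    exact h2
  set K := (k - 1) * (k * m ^ (k - 1)) with hK
  have hk3 : (3 : ℝ) ≤ k := by exact_mod_cast hk
  have hqR : (q : ℝ) ≤ ((k : ℝ) - 2) * b + K := by
    have : ((q : ℕ) : ℝ) ≤ (((k - 2) * b + K : ℕ) : ℝ) := by exact_mod_cast hq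
    push_cast [Nat.cast_sub (by omega : 2 ≤ k)] at this
    exact this
  have hqb : (q : ℝ) - b ≤ ((k : ℝ) - 3) / ((k : ℝ) - 2) * q + K := by
    have hk2 : (0 : ℝ) < (k : ℝ) - 2 := by linarith
    have hK0 : (0 : ℝ) ≤ K := by positivity
    rw [← sub_nonneg]
    have e : ((k : ℝ) - 3) / ((k : ℝ) - 2) * q + K - ((q : ℝ) - b) =
        (((k : ℝ) - 2) * b + K - q + ((k : ℝ) - 3) * K) / ((k : ℝ) - 2) := by
      field_simp
      ring
    rw [e]
    apply div_nonneg _ hk2.le
    have : 0 ≤ ((k : ℝ) - 3) * K := mul_nonneg (by linarith) hK0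
    linarith
  have g3 : Real.log c ≤ (1 - lm) * N * Real.log n + K * Real.log N + lm * m * Real.log (A τ n) := by
    have e1 : Real.log c = (1 - lm) * Real.log c + lm * Real.log c := by ring
    have a1 := mul_le_mul_of_nonneg_left g1 (by linarith : 0 ≤ 1 - lm)
    have a2 := mul_le_mul_of_nonneg_left g2 h0
    have a3 := mul_le_mul_of_nonneg_right hqb hlogN
    have a4 : (((k : ℝ) - 3) / ((k : ℝ) - 2) * q + K) * Real.log N =
        q * ((1 - lm) * Real.log n) + K * Real.log N := by rw [hlm]; ring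
    rw [a4] at a3
    have e2 : (1 - lm) * (((N : ℝ) - q) * Real.log n + ((q : ℝ) - b) * Real.log N) +
        lm * (m * Real.log (A τ n) + ((q : ℝ) - b) * Real.log N) =
        (1 - lm) * N * Real.log n - q * ((1 - lm) * Real.log n) + ((q : ℝ) - b) * Real.log N +
          lm * m * Real.log (A τ n) := by ring
    linarith
  calc (c : ℝ) = Real.exp (Real.log c) := (Real.exp_log hcpos).symm
    _ ≤ _ := Real.exp_le_exp.2 g3

theorem step_ineq {m n k : ℕ} (hk : 3 ≤ k) (τ : Setoid (Fin k)) (hτ : τ ≠ ⊤) (hm : 1 ≤ m)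
    (hn : 2 ≤ n) (lm : ℝ) (h0 : 0 ≤ lm) (h1 : lm ≤ 1)
    (hlm : (1 - lm) * Real.log n = ((k : ℝ) - 3) / ((k : ℝ) - 2) * Real.log ((m * n : ℕ) : ℝ)) :
    F τ (m * n) ≤ Real.log 4 / Real.log ((m * n : ℕ) : ℝ) + ((k : ℝ) - 3) / ((k : ℝ) - 2) +
      ((k - 1) * (k * m ^ (k - 1)) : ℕ) / ((m * n : ℕ) : ℝ) +
      lm * (Real.log n / Real.log ((m * n : ℕ) : ℝ)) * F τ n := by
  set E := ((1 - lm) * (m * n : ℕ) * Real.log n +
        ((k - 1) * (k * m ^ (k - 1)) : ℕ) * Real.log ((m * n : ℕ) : ℝ) +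
        lm * m * Real.log (A τ n)) with hE
  have hA := A_le (m := m) (n := n) τ (Real.exp E) (Real.exp_pos _).le
    (fun X Y => fib_log hk τ hτ hm (by omega) lm h0 h1 hlm X Y)
  have hN2 : 2 ≤ m * n := by nlinarith
  have hNR : (2 : ℝ) ≤ ((m * n : ℕ) : ℝ) := by exact_mod_cast hN2
  have hlogN : 0 < Real.log ((m * n : ℕ) : ℝ) := Real.log_pos (by linarith)
  have hnR : (2 : ℝ) ≤ (n : ℝ) := by exact_mod_cast hn
  have hlogn : 0 < Real.log (n : ℝ) := Real.log_pos (by linarith)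
  have hlog4 : 0 ≤ Real.log 4 := Real.log_nonneg (by norm_num)
  have hlogA : 0 ≤ Real.log (A τ n : ℝ) := Real.log_natCast_nonneg _
  have hE0 : 0 ≤ E := by
    have : 0 ≤ 1 - lm := by linarith
    positivity
  have hlog : Real.log (A τ (m * n)) ≤ E + (m * n : ℕ) * Real.log 4 := by
    rcases Nat.eq_zero_or_pos (A τ (m * n)) with h | h
    · rw [h]; simp only [Nat.cast_zero, Real.log_zero]; positivity
    · have h' : (0 : ℝ) < A τ (m * n) := by exact_mod_cast h
      have h2 := Real.log_le_log h' hA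
      rw [Real.log_mul (Real.exp_pos _).ne' (by positivity), Real.log_exp, Real.log_pow] at h2
      exact h2
  have hmR : (0 : ℝ) < m := by exact_mod_cast hm
  have hcast : ((m * n : ℕ) : ℝ) = m * n := by push_cast; ring
  unfold F
  rw [div_le_iff₀ (by positivity)]
  refine hlog.trans (le_of_eq ?_)
  rw [hE]
  have e1 : (1 - lm) * ((m * n : ℕ) : ℝ) * Real.log n =
      ((k : ℝ) - 3) / ((k : ℝ) - 2) * Real.log ((m * n : ℕ) : ℝ) * ((m * n : ℕ) : ℝ) := by
    rw [← hlm]; ring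
  rw [e1]
  have e2 : lm * (Real.log n / Real.log ((m * n : ℕ) : ℝ)) * (Real.log (A τ n) / (n * Real.log n)) *
      (((m * n : ℕ) : ℝ) * Real.log ((m * n : ℕ) : ℝ)) = lm * m * Real.log (A τ n) := by
    rw [hcast] at hlogN ⊢
    field_simp
  have e3 : Real.log 4 / Real.log ((m * n : ℕ) : ℝ) *
      (((m * n : ℕ) : ℝ) * Real.log ((m * n : ℕ) : ℝ)) = ((m * n : ℕ) : ℝ) * Real.log 4 := by
    field_simp
  have e4 : (((k - 1) * (k * m ^ (k - 1)) : ℕ) : ℝ) / ((m * n : ℕ) : ℝ) *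
      (((m * n : ℕ) : ℝ) * Real.log ((m * n : ℕ) : ℝ)) =
      (((k - 1) * (k * m ^ (k - 1)) : ℕ) : ℝ) * Real.log ((m * n : ℕ) : ℝ) := by
    have : ((m * n : ℕ) : ℝ) ≠ 0 := by positivity
    field_simp
  rw [add_mul, add_mul, add_mul, e2, e3, e4]
  ring

end Pool.Agent.T6.H85.SetPart
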