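import Mathlib

set_option autoImplicit false

open Finset

namespace Pool.Agent.T6.H85.SetPart

/-- The set partition `s` of `[n]` contains the set partition `τ` of `[k]`: there is a strictly
increasing `f : [k] → [n]` with `f x`, `f y` in one block of `s` iff `x`, `y` are in one block
of `τ`. -/
def Contains {n k : ℕ} (s : Setoid (Fin n)) (τ : Setoid (Fin k)) : Prop :=
  ∃ f : Fin k → Fin n, StrictMono f ∧ ∀ x y, s.r (f x) (f y) ↔ τ.r x y

theorem exists_consec {k : ℕ} (τ : Setoid (Fin k)) (hτ : τ ≠ ⊤) :
    ∃ i : ℕ, ∃ h : i + 1 < k, ¬ τ.r ⟨i, by omega⟩ ⟨i + 1, h⟩ := by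
  by_contra hcon
  push Not at hcon
  apply hτ
  rw [Setoid.eq_top_iff]
  have key : ∀ a : ℕ, ∀ ha : a < k, τ.r ⟨0, by omega⟩ ⟨a, ha⟩ := by
    intro a
    induction a with
    | zero => intro ha; exact τ.refl _
    | succ a ih =>
      intro ha
      exact τ.trans (ih (by omega)) (hcon a ha)
  intro x y
  exact τ.trans (τ.symm (key x.1 x.2)) (key y.1 y.2)

/-- position of the interval which receives the `l`-th element -/
def pos (i l : ℕ) : ℕ := if l ≤ i then l else l - 1

theorem pos_lt {i l k : ℕ} (hi : i + 1 < k) (hl : l < k) : pos i l < k - 1 := by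
  unfold pos; split_ifs <;> omega

theorem pos_mono {i l l' : ℕ} (h : l < l') : pos i l < pos i l' ∨ (l = i ∧ l' = i + 1) := by
  unfold pos; split_ifs <;> omega

/-- The `J`-th element of the `I`-th interval. -/
abbrev el {m n : ℕ} (I : Fin m) (y : Fin n) : Fin (m * n) := finProdFinEquiv (I, y)

theorem el_lt_of_lt {m n : ℕ} {I I' : Fin m} (y y' : Fin n) (h : I < I') : el I y < el I' y' := by
  rw [Fin.lt_def]
  simp only [el, finProdFinEquiv_apply_val]
  have h1 : (I : ℕ) + 1 ≤ I' := h
  have h2 := y.2
  nlinarith [Nat.mul_le_mul_left n h1]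

theorem el_lt_of_eq {m n : ℕ} (I : Fin m) {y y' : Fin n} (h : y < y') : el I y < el I y' := by
  rw [Fin.lt_def]
  simp only [el, finProdFinEquiv_apply_val]
  have h1 : (y : ℕ) < y' := h
  omega

/-- The classes `B` of `s` which meet the `I`-th interval. -/
def Hits {m n : ℕ} (s : Setoid (Fin (m * n))) (B : Quotient s) (I : Fin m) : Prop :=
  ∃ y : Fin n, (Quotient.mk s (el I y)) = B

theorem hit_bound {m n k : ℕ} (s : Setoid (Fin (m * n))) (τ : Setoid (Fin k)) (hτ : τ ≠ ⊤)
    (hs : ¬ Contains s τ) (J : Fin (k - 1) → Fin m) (hJ : StrictMono J)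
    (F : Finset (Quotient s)) (hF : ∀ B ∈ F, ∀ l, Hits s B (J l)) : F.card < k := by
  classical
  by_contra hcard
  push Not at hcard
  apply hs
  obtain ⟨i, hi, hne⟩ := exists_consec τ hτ
  have hcq : Fintype.card (Quotient τ) ≤ Fintype.card F := by
    have h1 : Fintype.card (Quotient τ) ≤ Fintype.card (Fin k) :=
      Fintype.card_quotient_le τ
    rw [Fintype.card_fin] at h1
    rw [Fintype.card_coe]
    omega
  obtain ⟨β₀⟩ := Function.Embedding.nonempty_of_card_le hcq
  set a : Quotient τ := Quotient.mk τ ⟨i, by omega⟩ with ha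
  set b : Quotient τ := Quotient.mk τ ⟨i + 1, hi⟩ with hb
  have hab : a ≠ b := fun h => hne (Quotient.exact h)
  -- choice of elements
  have hch : ∀ (B : F) (l : Fin (k - 1)), ∃ y : Fin n, Quotient.mk s (el (J l) y) = B.1 :=
    fun B l => hF B.1 B.2 l
  choose Y hY using hch
  set p : Fin (k - 1) := ⟨i, by omega⟩ with hp
  have hYne : ∀ B B' : F, B ≠ B' → ∀ l, Y B l ≠ Y B' l := by
    intro B B' hBB l h
    apply hBB
    apply Subtype.ext
    rw [← hY B l, ← hY B' l, h]
  obtain ⟨β, hβ, hlt⟩ : ∃ β : Quotient τ → F, Function.Injective β ∧ Y (β a) p < Y (β b) p := by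
    rcases lt_or_ge (Y (β₀ a) p) (Y (β₀ b) p) with h | h
    · exact ⟨β₀, β₀.injective, h⟩
    · refine ⟨β₀ ∘ Equiv.swap a b, β₀.injective.comp (Equiv.swap a b).injective, ?_⟩
      simp only [Function.comp, Equiv.swap_apply_left, Equiv.swap_apply_right]
      exact lt_of_le_of_ne h (hYne _ _ (fun h' => hab (β₀.injective h').symm) p)
  refine ⟨fun l => el (J ⟨pos i l, pos_lt hi l.2⟩)
    (Y (β (Quotient.mk τ l)) ⟨pos i l, pos_lt hi l.2⟩), ?_, ?_⟩
  · intro l l' hll
    rcases pos_mono (i := i) (show (l : ℕ) < l' from hll) with h | ⟨h1, h2⟩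
    · apply el_lt_of_lt
      apply hJ
      exact h
    · have e1 : pos i l = i := by unfold pos; rw [if_pos (by omega)]; exact h1
      have e2 : pos i l' = i := by unfold pos; rw [if_neg (by omega)]; omega
      have e1' : (⟨pos i l, pos_lt hi l.2⟩ : Fin (k - 1)) = p := Fin.ext e1
      have e2' : (⟨pos i l', pos_lt hi l'.2⟩ : Fin (k - 1)) = p := Fin.ext e2
      have e3 : Quotient.mk τ l = a := by rw [ha]; congr 1; exact Fin.ext h1
      have e4 : Quotient.mk τ l' = b := by rw [hb]; congr 1; exact Fin.ext h2
      simp only [e1', e2', e3, e4]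
      exact el_lt_of_eq _ hlt
  · intro x y
    have h1 := hY (β (Quotient.mk τ x)) ⟨pos i x, pos_lt hi x.2⟩
    have h2 := hY (β (Quotient.mk τ y)) ⟨pos i y, pos_lt hi y.2⟩
    constructor
    · intro h
      have h3 := Quotient.sound (s := s) h
      change Quotient.mk s _ = Quotient.mk s _ at h3
      rw [h1, h2] at h3
      have h4 := hβ (Subtype.ext h3)
      exact Quotient.exact h4
    · intro h
      have h3 : Quotient.mk τ x = Quotient.mk τ y := Quotient.sound h
      have h4 : (Quotient.mk s (el (J ⟨pos i x, pos_lt hi x.2⟩)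
          (Y (β (Quotient.mk τ x)) ⟨pos i x, pos_lt hi x.2⟩))) =
        Quotient.mk s (el (J ⟨pos i y, pos_lt hi y.2⟩)
          (Y (β (Quotient.mk τ y)) ⟨pos i y, pos_lt hi y.2⟩)) := by
        rw [h1, h2, h3]
      exact Quotient.exact h4

/-- The number of intervals met by the block `B`. -/
noncomputable def hset {m n : ℕ} (s : Setoid (Fin (m * n))) (B : Quotient s) : Finset (Fin m) := by
  classical
  exact univ.filter (fun I => Hits s B I)

theorem card_le_choose (h j : ℕ) (hj : 1 ≤ j) : h ≤ (j - 1) + j * h.choose j := by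
  rcases Nat.lt_or_ge h j with h1 | h1
  · omega
  · have h2 : h * (h - 1).choose (j - 1) = h.choose j * j := by
      have := Nat.add_one_mul_choose_eq (h - 1) (j - 1)
      have e1 : h - 1 + 1 = h := by omega
      have e2 : j - 1 + 1 = j := by omega
      rw [e1, e2] at this
      exact this
    have h3 : 1 ≤ (h - 1).choose (j - 1) := Nat.choose_pos (by omega)
    nlinarith

theorem sum_hset {m n k : ℕ} (hk : 2 ≤ k) (s : Setoid (Fin (m * n))) (τ : Setoid (Fin k))
    (hτ : τ ≠ ⊤) (hs : ¬ Contains s τ) [Fintype (Quotient s)] :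
    ∑ B : Quotient s, (hset s B).card ≤
      (k - 2) * Fintype.card (Quotient s) + (k - 1) * (k * m ^ (k - 1)) := by
  classical
  calc ∑ B : Quotient s, (hset s B).card
      ≤ ∑ B : Quotient s, ((k - 2) + (k - 1) * (hset s B).card.choose (k - 1)) := by
        apply sum_le_sum
        intro B _
        have := card_le_choose (hset s B).card (k - 1) (by omega)
        have e : k - 1 - 1 = k - 2 := by omega
        rwa [e] at this
    _ = (k - 2) * Fintype.card (Quotient s) +
          (k - 1) * ∑ B : Quotient s, (hset s B).card.choose (k - 1) := by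
        rw [sum_add_distrib, ← mul_sum]
        simp only [sum_const, smul_eq_mul, card_univ]
        ring
    _ ≤ _ := by
        have key : ∑ B : Quotient s, (hset s B).card.choose (k - 1) ≤ k * m ^ (k - 1) := by
          calc ∑ B : Quotient s, (hset s B).card.choose (k - 1)
              = ∑ B : Quotient s, ∑ S ∈ powersetCard (k - 1) (univ : Finset (Fin m)),
                  (if S ⊆ hset s B then 1 else 0) := by
                apply sum_congr rfl
                intro B _
                rw [← card_powersetCard, ← sum_filter, sum_const, smul_eq_mul, mul_one]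
                congr 1
                ext S
                simp only [mem_powersetCard, mem_filter, subset_univ, true_and]
                tauto
            _ = ∑ S ∈ powersetCard (k - 1) (univ : Finset (Fin m)),
                  ∑ B : Quotient s, (if S ⊆ hset s B then 1 else 0) := sum_comm
            _ ≤ ∑ S ∈ powersetCard (k - 1) (univ : Finset (Fin m)), k := by
                apply sum_le_sum
                intro S hS
                rw [mem_powersetCard] at hS
                rw [← sum_filter, sum_const, smul_eq_mul, mul_one]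
                refine (hit_bound s τ hτ hs (S.orderEmbOfFin hS.2)
                  (S.orderEmbOfFin hS.2).strictMono _ ?_).le
                intro B hB l
                rw [mem_filter] at hB
                have h1 := hB.2 (S.orderEmbOfFin_mem hS.2 l)
                unfold hset at h1
                rw [mem_filter] at h1
                exact h1.2
            _ = k * (m.choose (k - 1)) := by
                rw [sum_const, card_powersetCard, card_univ, Fintype.card_fin, smul_eq_mul]
                ring
            _ ≤ _ := Nat.mul_le_mul_left _ (Nat.choose_le_pow _ _)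
        have := Nat.mul_le_mul_left (k - 1) key
        omega

end Pool.Agent.T6.H85.SetPart
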