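import Pool.Agent.T6.H85.SetPart.Comb

set_option autoImplicit false

open Finset

namespace Pool.Agent.T6.H85.SetPart

/-- The number of set partitions of `[n]` which avoid `τ`. -/
noncomputable def A {k : ℕ} (τ : Setoid (Fin k)) (n : ℕ) : ℕ :=
  Nat.card {s : Setoid (Fin n) // ¬ Contains s τ}

section
variable {m n : ℕ}

/-- the restriction of a partition to the `I`-th interval -/
def rI (s : Setoid (Fin (m * n))) (I : Fin m) : Setoid (Fin n) := s.comap (fun y => el I y)

theorem rI_avoid {k : ℕ} {τ : Setoid (Fin k)} {s : Setoid (Fin (m * n))} (hs : ¬ Contains s τ)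
    (I : Fin m) : ¬ Contains (rI s I) τ := by
  rintro ⟨f, hf, h⟩
  exact hs ⟨fun x => el I (f x), fun x y hxy => el_lt_of_eq I (hf hxy), h⟩

/-- the chosen representative of `x` in its interval -/
noncomputable def lamP (s : Setoid (Fin (m * n))) (p : Fin m × Fin n) : Fin (m * n) :=
  el p.1 (Quotient.mk (rI s p.1) p.2).out

/-- the chosen representative of `x` in its interval -/
noncomputable def lam (s : Setoid (Fin (m * n))) (x : Fin (m * n)) : Fin (m * n) :=
  lamP s (finProdFinEquiv.symm x)

/-- the chosen representative of the block of `x` -/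
noncomputable def glob (s : Setoid (Fin (m * n))) (x : Fin (m * n)) : Fin (m * n) :=
  lam s (Quotient.mk s x).out

theorem lam_el (s : Setoid (Fin (m * n))) (I : Fin m) (y : Fin n) :
    lam s (el I y) = el I (Quotient.mk (rI s I) y).out := by
  unfold lam
  rw [el, Equiv.symm_apply_apply]
  rfl

theorem exists_el (x : Fin (m * n)) : ∃ I y, x = el I y := by
  refine ⟨(finProdFinEquiv.symm x).1, (finProdFinEquiv.symm x).2, ?_⟩
  simp only [el, Prod.mk.eta, Equiv.apply_symm_apply]

theorem lam_rel (s : Setoid (Fin (m * n))) (x : Fin (m * n)) : s.r (lam s x) x := by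
  obtain ⟨I, y, rfl⟩ := exists_el x
  rw [lam_el]
  have h : (rI s I).r ((Quotient.mk (rI s I) y).out) y := Quotient.mk_out y
  exact h

theorem lam_lam (s : Setoid (Fin (m * n))) (x : Fin (m * n)) : lam s (lam s x) = lam s x := by
  obtain ⟨I, y, rfl⟩ := exists_el x
  rw [lam_el, lam_el, Quotient.out_eq]

theorem glob_rel (s : Setoid (Fin (m * n))) (x : Fin (m * n)) : s.r (glob s x) x := by
  unfold glob
  exact s.trans (lam_rel s _) (Quotient.mk_out x)

theorem glob_eq_iff (s : Setoid (Fin (m * n))) (x y : Fin (m * n)) :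
    s.r x y ↔ glob s x = glob s y := by
  constructor
  · intro h
    unfold glob
    have h1 : Quotient.mk s x = Quotient.mk s y := Quotient.sound h
    rw [h1]
  · intro h
    exact s.trans (s.symm (glob_rel s x)) (h ▸ glob_rel s y)

theorem lam_glob (s : Setoid (Fin (m * n))) (x : Fin (m * n)) : lam s (glob s x) = glob s x := by
  unfold glob
  exact lam_lam s _

theorem glob_lam (s : Setoid (Fin (m * n))) (x : Fin (m * n)) : glob s (lam s x) = glob s x :=
  (glob_eq_iff s _ _).1 (lam_rel s x)

theorem glob_glob (s : Setoid (Fin (m * n))) (x : Fin (m * n)) : glob s (glob s x) = glob s x :=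
  (glob_eq_iff s _ _).1 (glob_rel s x)

/-- chosen representatives in the intervals -/
noncomputable def repI (s : Setoid (Fin (m * n))) : Finset (Fin (m * n)) :=
  univ.filter (fun x => lam s x = x)

/-- chosen representatives of the blocks -/
noncomputable def repB (s : Setoid (Fin (m * n))) : Finset (Fin (m * n)) :=
  univ.filter (fun x => glob s x = x)

theorem repB_subset (s : Setoid (Fin (m * n))) : repB s ⊆ repI s := by
  intro x hx
  unfold repB at hx
  unfold repI
  rw [mem_filter] at hx ⊢
  refine ⟨hx.1, ?_⟩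
  have h := lam_glob s x
  rwa [hx.2] at h

theorem card_quot_le (s : Setoid (Fin (m * n))) [Fintype (Quotient s)] :
    Fintype.card (Quotient s) ≤ (repB s).card := by
  classical
  rw [← Fintype.card_coe]
  refine Fintype.card_le_of_injective
    (fun B : Quotient s => (⟨glob s B.out, ?_⟩ : repB s)) ?_
  · unfold repB
    rw [mem_filter]
    exact ⟨mem_univ _, glob_glob s _⟩
  · intro B B' h
    have h1 : glob s B.out = glob s B'.out := congrArg Subtype.val h
    have h2 := (glob_eq_iff s _ _).2 h1
    have h3 : Quotient.mk s B.out = Quotient.mk s B'.out := Quotient.sound h2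
    rwa [Quotient.out_eq, Quotient.out_eq] at h3

theorem card_repI_le (s : Setoid (Fin (m * n))) [Fintype (Quotient s)] :
    (repI s).card ≤ ∑ B : Quotient s, (hset s B).card := by
  classical
  rw [← card_sigma]
  refine card_le_card_of_injOn
    (fun x => ⟨Quotient.mk s x, (finProdFinEquiv.symm x).1⟩) ?_ ?_
  · intro x _
    simp only [coe_sigma, Set.mem_sigma_iff, mem_coe, mem_univ, true_and]
    unfold hset
    rw [mem_filter]
    refine ⟨mem_univ _, (finProdFinEquiv.symm x).2, ?_⟩
    simp only [el, Prod.mk.eta, Equiv.apply_symm_apply]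
  · intro x hx x' hx' h
    simp only [mem_coe, repI, mem_filter] at hx hx'
    obtain ⟨I, y, rfl⟩ := exists_el x
    obtain ⟨I', y', rfl⟩ := exists_el x'
    simp only [el, Equiv.symm_apply_apply, Sigma.mk.injEq, heq_eq_eq] at h
    obtain ⟨h1, rfl⟩ := h
    have h1' : s.r (el I y) (el I y') := Quotient.exact h1
    have h2 : (rI s I).r y y' := h1'
    have h3 : Quotient.mk (rI s I) y = Quotient.mk (rI s I) y' := Quotient.sound h2
    rw [← hx.2, ← hx'.2, lam_el, lam_el, h3]

/-- the main inequality between the numbers of representatives -/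
theorem card_repI_repB {k : ℕ} (hk : 2 ≤ k) (s : Setoid (Fin (m * n))) (τ : Setoid (Fin k))
    (hτ : τ ≠ ⊤) (hs : ¬ Contains s τ) :
    (repI s).card ≤ (k - 2) * (repB s).card + (k - 1) * (k * m ^ (k - 1)) := by
  classical
  have h1 := sum_hset hk s τ hτ hs
  have h2 := card_repI_le s
  have h3 := Nat.mul_le_mul_left (k - 2) (card_quot_le s)
  omega

theorem setoid_ext_of_glob {s s' : Setoid (Fin (m * n))} (h : ∀ x, glob s x = glob s' x) :
    s = s' := by
  ext x y
  have h1 := glob_eq_iff s x y
  have h2 := glob_eq_iff s' x y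
  rw [h x, h y] at h1
  exact h1.trans h2.symm

theorem glob_ext {s s' : Setoid (Fin (m * n))} {X Y : Finset (Fin (m * n))}
    (hX : repI s = X) (hY : repB s = Y) (hY' : repB s' = Y)
    (hlam : ∀ x, lam s x = lam s' x) (hg : ∀ x ∈ X \ Y, glob s x = glob s' x) :
    s = s' := by
  apply setoid_ext_of_glob
  intro x
  rw [← glob_lam s x, ← glob_lam s' x, ← hlam x]
  set z := lam s x with hz
  have hzX : z ∈ X := by
    rw [← hX]; unfold repI; rw [mem_filter]
    exact ⟨mem_univ _, by rw [hz, lam_lam]⟩
  by_cases hzY : z ∈ Y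
  · have h1 : glob s z = z := by
      have := hzY; rw [← hY] at this; unfold repB at this; rw [mem_filter] at this; exact this.2
    have h2 : glob s' z = z := by
      have := hzY; rw [← hY'] at this; unfold repB at this; rw [mem_filter] at this; exact this.2
    rw [h1, h2]
  · exact hg z (mem_sdiff.2 ⟨hzX, hzY⟩)

/-- The fibres. -/
def Fib {k : ℕ} (τ : Setoid (Fin k)) (X Y : Finset (Fin (m * n))) : Type :=
  {s : Setoid (Fin (m * n)) // ¬ Contains s τ ∧ repI s = X ∧ repB s = Y}

instance finiteSetoid {α : Type*} [Finite α] : Finite (Setoid α) := by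
  refine Finite.of_injective (fun s : Setoid α => (fun x y => s.r x y : α → α → Prop)) ?_
  intro s s' h
  ext x y
  have := congrFun (congrFun h x) y
  simp only at this
  exact iff_of_eq this

instance {k : ℕ} (τ : Setoid (Fin k)) (X Y : Finset (Fin (m * n))) : Finite (Fib τ X Y) := by
  unfold Fib; infer_instance

theorem fib_one {k : ℕ} (τ : Setoid (Fin k)) (X Y : Finset (Fin (m * n))) :
    Nat.card (Fib τ X Y) ≤ n ^ (m * n - X.card) * (m * n) ^ (X \ Y).card := by
  classical
  have hc : Nat.card (((Xᶜ : Finset (Fin (m * n))) → Fin n) × ((X \ Y : Finset _) → Fin (m * n)))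
      = n ^ (m * n - X.card) * (m * n) ^ (X \ Y).card := by
    rw [Nat.card_prod, Nat.card_fun, Nat.card_fun]
    simp only [Nat.card_eq_fintype_card, Fintype.card_fin, Fintype.card_coe, card_compl]
  rw [← hc]
  refine Nat.card_le_card_of_injective
    (fun s => (fun x => (finProdFinEquiv.symm (lam s.1 x.1)).2, fun x => glob s.1 x.1)) ?_
  rintro ⟨s, hs, hsX, hsY⟩ ⟨s', hs', hsX', hsY'⟩ h
  simp only [Prod.mk.injEq] at h
  obtain ⟨h1, h2⟩ := h
  apply Subtype.ext
  refine glob_ext hsX hsY hsY' ?_ ?_
  · intro x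
    by_cases hx : x ∈ X
    · have h3 : lam s x = x := by
        rw [← hsX] at hx; unfold repI at hx; rw [mem_filter] at hx; exact hx.2
      have h4 : lam s' x = x := by
        rw [← hsX'] at hx; unfold repI at hx; rw [mem_filter] at hx; exact hx.2
      rw [h3, h4]
    · have h3 := congrFun h1 ⟨x, mem_compl.2 hx⟩
      simp only at h3
      obtain ⟨I, y, rfl⟩ := exists_el x
      rw [lam_el, lam_el] at h3 ⊢
      simp only [el, Equiv.symm_apply_apply] at h3
      rw [h3]
  · intro x hx
    exact congrFun h2 ⟨x, hx⟩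

theorem fib_two {k : ℕ} (τ : Setoid (Fin k)) (X Y : Finset (Fin (m * n))) :
    Nat.card (Fib τ X Y) ≤ (A τ n) ^ m * (m * n) ^ (X \ Y).card := by
  classical
  have hc : Nat.card ((Fin m → {s : Setoid (Fin n) // ¬ Contains s τ}) ×
      ((X \ Y : Finset _) → Fin (m * n))) = (A τ n) ^ m * (m * n) ^ (X \ Y).card := by
    rw [Nat.card_prod, Nat.card_fun, Nat.card_fun]
    simp only [A, Nat.card_eq_fintype_card, Fintype.card_fin, Fintype.card_coe]
  rw [← hc]
  refine Nat.card_le_card_of_injective
    (fun s => (fun I => ⟨rI s.1 I, rI_avoid s.2.1 I⟩, fun x => glob s.1 x.1)) ?_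
  rintro ⟨s, hs, hsX, hsY⟩ ⟨s', hs', hsX', hsY'⟩ h
  simp only [Prod.mk.injEq] at h
  obtain ⟨h1, h2⟩ := h
  apply Subtype.ext
  refine glob_ext hsX hsY hsY' ?_ ?_
  · intro x
    obtain ⟨I, y, rfl⟩ := exists_el x
    have h3 : rI s I = rI s' I := congrArg Subtype.val (congrFun h1 I)
    rw [lam_el, lam_el, h3]
  · intro x hx
    exact congrFun h2 ⟨x, hx⟩

/-- Summation over the fibres. -/
theorem A_le {k : ℕ} (τ : Setoid (Fin k)) (R : ℝ) (hR0 : 0 ≤ R)
    (hR : ∀ X Y : Finset (Fin (m * n)), (Nat.card (Fib (m := m) (n := n) τ X Y) : ℝ) ≤ R) :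
    (A τ (m * n) : ℝ) ≤ R * 4 ^ (m * n) := by
  classical
  set r := ⌊R⌋₊ with hr
  have hR' : ∀ X Y : Finset (Fin (m * n)), Nat.card (Fib (m := m) (n := n) τ X Y) ≤ r :=
    fun X Y => Nat.le_floor (hR X Y)
  have : Fintype {s : Setoid (Fin (m * n)) // ¬ Contains s τ} := Fintype.ofFinite _
  have h1 : A τ (m * n) ≤ r * 4 ^ (m * n) := by
    unfold A
    rw [Nat.card_eq_fintype_card, ← card_univ]
    have h2 := card_le_mul_card_image
      (f := fun s : {s : Setoid (Fin (m * n)) // ¬ Contains s τ} => (repI s.1, repB s.1)) univ r ?_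
    · refine h2.trans (Nat.mul_le_mul_left _ ?_)
      refine (card_le_univ _).trans ?_
      rw [Fintype.card_prod, Fintype.card_finset, Fintype.card_fin, ← mul_pow]
      norm_num
    · rintro ⟨X, Y⟩ _
      refine le_trans ?_ (hR' X Y)
      rw [← Fintype.card_subtype, ← Nat.card_eq_fintype_card]
      refine Nat.card_le_card_of_injective
        (fun a => (⟨a.1.1, a.1.2, (Prod.mk.inj a.2).1, (Prod.mk.inj a.2).2⟩ :
          Fib (m := m) (n := n) τ X Y)) ?_
      intro a a' h
      have h1 := congrArg Subtype.val h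
      exact Subtype.ext (Subtype.ext h1)
  calc (A τ (m * n) : ℝ) ≤ ((r * 4 ^ (m * n) : ℕ) : ℝ) := by exact_mod_cast h1
    _ = (r : ℝ) * 4 ^ (m * n) := by push_cast; ring
    _ ≤ R * 4 ^ (m * n) := mul_le_mul_of_nonneg_right (Nat.floor_le hR0) (by positivity)

end

end Pool.Agent.T6.H85.SetPart
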