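import Pool.Agent.T6.H85.SetPart.Asym

set_option autoImplicit false

open Finset Filter Topology

namespace Pool.Agent.T6.H85.SetPart

theorem seq_ineq {k : ℕ} (hk : 3 ≤ k) (τ : Setoid (Fin k)) (hτ : τ ≠ ⊤) (s t : ℕ)
    (ht : 2 ≤ t) :
    F τ (t ^ ((k - 1) * s + 1)) ≤ Real.log 4 / Real.log ((t ^ ((k - 1) * s + 1) : ℕ) : ℝ) +
      ((k : ℝ) - 3) / ((k : ℝ) - 2) + ((k : ℝ) - 1) * k / t +
      ((((k : ℝ) - 2) * s + 1) / (((k : ℝ) - 1) * s + 1) - ((k : ℝ) - 3) / ((k : ℝ) - 2)) *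
        F τ (t ^ ((k - 2) * s + 1)) := by
  set m := t ^ s with hm
  set n := t ^ ((k - 2) * s + 1) with hn
  have hk3 : (3 : ℝ) ≤ k := by exact_mod_cast hk
  have htR : (2 : ℝ) ≤ t := by exact_mod_cast ht
  have hlt : 0 < Real.log t := Real.log_pos (by linarith)
  have hmn : m * n = t ^ ((k - 1) * s + 1) := by
    rw [hm, hn, ← pow_add]
    congr 1
    obtain ⟨j, rfl⟩ := Nat.exists_eq_add_of_le hk
    have e1 : 3 + j - 2 = j + 1 := by omega
    have e2 : 3 + j - 1 = j + 2 := by omega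
    rw [e1, e2]; ring
  have hm1 : 1 ≤ m := Nat.one_le_pow _ _ (by omega)
  have hn2 : 2 ≤ n := by
    rw [hn]
    calc 2 ≤ t := ht
      _ = t ^ 1 := (pow_one t).symm
      _ ≤ _ := Nat.pow_le_pow_right (by omega) (by omega)
  set P : ℝ := ((k : ℝ) - 1) * s + 1 with hP
  set P' : ℝ := ((k : ℝ) - 2) * s + 1 with hP'
  have hs0 : (0 : ℝ) ≤ s := Nat.cast_nonneg s
  have hPpos : 0 < P := by
    have := mul_nonneg (by linarith : (0 : ℝ) ≤ (k : ℝ) - 1) hs0
    linarith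
  have hP'pos : 0 < P' := by
    have := mul_nonneg (by linarith : (0 : ℝ) ≤ (k : ℝ) - 2) hs0
    linarith
  have hk2 : (0 : ℝ) < (k : ℝ) - 2 := by linarith
  have hlogN : Real.log ((m * n : ℕ) : ℝ) = P * Real.log t := by
    rw [hmn]
    push_cast
    rw [Real.log_pow]
    push_cast [Nat.cast_sub (by omega : 1 ≤ k)]
    rw [hP]
  have hlogn : Real.log (n : ℝ) = P' * Real.log t := by
    rw [hn]
    push_cast
    rw [Real.log_pow]
    push_cast [Nat.cast_sub (by omega : 2 ≤ k)]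
    rw [hP']
  set lm : ℝ := 1 - ((k : ℝ) - 3) / ((k : ℝ) - 2) * (P / P') with hlm
  have hfrac : 0 ≤ ((k : ℝ) - 3) / ((k : ℝ) - 2) := div_nonneg (by linarith) hk2.le
  have hlm1 : lm ≤ 1 := by
    have : 0 ≤ ((k : ℝ) - 3) / ((k : ℝ) - 2) * (P / P') := by positivity
    linarith
  have hlm0 : 0 ≤ lm := by
    have : ((k : ℝ) - 3) / ((k : ℝ) - 2) * (P / P') ≤ 1 := by
      rw [div_mul_div_comm, div_le_one (by positivity)]
      rw [hP, hP']
      nlinarith
    linarith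
  have h := step_ineq hk τ hτ hm1 hn2 lm hlm0 hlm1 (by
    rw [hlogN, hlogn, hlm]; field_simp; ring)
  rw [hlogN, hlogn] at h
  have hmn' : ((t ^ ((k - 1) * s + 1) : ℕ) : ℝ) = ((m * n : ℕ) : ℝ) := by rw [hmn]
  rw [hmn', hlogN]
  rw [hmn] at h
  refine h.trans (le_of_eq ?_)
  have e1 : lm * (P' * Real.log t / (P * Real.log t)) =
      P' / P - ((k : ℝ) - 3) / ((k : ℝ) - 2) := by
    rw [hlm]; field_simp
  have e2 : (((k - 1) * (k * m ^ (k - 1)) : ℕ) : ℝ) / ((t ^ ((k - 1) * s + 1) : ℕ) : ℝ) =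
      ((k : ℝ) - 1) * k / t := by
    rw [hm]
    push_cast [Nat.cast_sub (by omega : 1 ≤ k)]
    rw [pow_succ, ← pow_mul, mul_comm s (k - 1)]
    have : (t : ℝ) ≠ 0 := by positivity
    field_simp
  rw [e1, e2]

theorem limit_ineq {k : ℕ} (hk : 3 ≤ k) (τ : Setoid (Fin k)) (hτ : τ ≠ ⊤) (L : ℝ)
    (hL : Tendsto (F τ) atTop (𝓝 L)) (s : ℕ) :
    L ≤ ((k : ℝ) - 3) / ((k : ℝ) - 2) +
      ((((k : ℝ) - 2) * s + 1) / (((k : ℝ) - 1) * s + 1) - ((k : ℝ) - 3) / ((k : ℝ) - 2)) * L := by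
  have hpow : ∀ e : ℕ, 1 ≤ e → Tendsto (fun t : ℕ => t ^ e) atTop atTop := fun e he =>
    tendsto_pow_atTop (by omega)
  have h1 : Tendsto (fun t : ℕ => F τ (t ^ ((k - 1) * s + 1))) atTop (𝓝 L) :=
    hL.comp (hpow _ (by omega))
  have h2 : Tendsto (fun t : ℕ => F τ (t ^ ((k - 2) * s + 1))) atTop (𝓝 L) :=
    hL.comp (hpow _ (by omega))
  have h3 : Tendsto (fun t : ℕ => Real.log 4 / Real.log ((t ^ ((k - 1) * s + 1) : ℕ) : ℝ))
      atTop (𝓝 0) := by
    apply Tendsto.div_atTop tendsto_const_nhds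
    exact Real.tendsto_log_atTop.comp (tendsto_natCast_atTop_atTop.comp (hpow _ (by omega)))
  have h4 : Tendsto (fun t : ℕ => ((k : ℝ) - 1) * k / t) atTop (𝓝 0) := by
    exact tendsto_const_div_atTop_nhds_zero_nat _
  have h5 := ((h3.add_const (((k : ℝ) - 3) / ((k : ℝ) - 2))).add h4).add
    (h2.const_mul ((((k : ℝ) - 2) * s + 1) / (((k : ℝ) - 1) * s + 1) - ((k : ℝ) - 3) / ((k : ℝ) - 2)))
  have h6 := le_of_tendsto_of_tendsto h1 h5 (by
    filter_upwards [eventually_ge_atTop 2] with t ht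
    exact seq_ineq hk τ hτ s t ht)
  simpa using h6

/-- The explicit bound for partitions with at least two blocks. -/
theorem strong_bound {k : ℕ} (hk : 3 ≤ k) (τ : Setoid (Fin k)) (hτ : τ ≠ ⊤) (L : ℝ)
    (hL : Tendsto (F τ) atTop (𝓝 L)) :
    L ≤ ((k : ℝ) - 1) * ((k : ℝ) - 3) / ((k : ℝ) ^ 2 - 3 * k + 1) := by
  have hk3 : (3 : ℝ) ≤ k := by exact_mod_cast hk
  have hlim : Tendsto (fun s : ℕ => (((k : ℝ) - 2) * s + 1) / (((k : ℝ) - 1) * s + 1)) atTop
      (𝓝 (((k : ℝ) - 2) / ((k : ℝ) - 1))) := by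
    have e : ∀ᶠ s : ℕ in atTop, (((k : ℝ) - 2) + 1 / (s : ℝ)) / (((k : ℝ) - 1) + 1 / (s : ℝ)) =
        (((k : ℝ) - 2) * s + 1) / (((k : ℝ) - 1) * s + 1) := by
      filter_upwards [eventually_ge_atTop 1] with s hs
      have hs' : (0 : ℝ) < s := by exact_mod_cast hs
      have : ((k : ℝ) - 1) * s + 1 ≠ 0 := by nlinarith
      field_simp
    refine Tendsto.congr' e ?_
    have h0 : Tendsto (fun s : ℕ => 1 / (s : ℝ)) atTop (𝓝 0) :=
      tendsto_const_div_atTop_nhds_zero_nat 1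
    have h1 : Tendsto (fun s : ℕ => (((k : ℝ) - 2) + 1 / (s : ℝ)) / (((k : ℝ) - 1) + 1 / (s : ℝ)))
        atTop (𝓝 ((((k : ℝ) - 2) + 0) / (((k : ℝ) - 1) + 0))) :=
      (h0.const_add ((k : ℝ) - 2)).div (h0.const_add ((k : ℝ) - 1)) (by linarith)
    rwa [add_zero, add_zero] at h1
  have h1 : Tendsto (fun s : ℕ => ((k : ℝ) - 3) / ((k : ℝ) - 2) +
      ((((k : ℝ) - 2) * s + 1) / (((k : ℝ) - 1) * s + 1) - ((k : ℝ) - 3) / ((k : ℝ) - 2)) * L)
      atTop (𝓝 (((k : ℝ) - 3) / ((k : ℝ) - 2) +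
      (((k : ℝ) - 2) / ((k : ℝ) - 1) - ((k : ℝ) - 3) / ((k : ℝ) - 2)) * L)) :=
    ((hlim.sub_const _).mul_const L).const_add _
  have h2 : L ≤ ((k : ℝ) - 3) / ((k : ℝ) - 2) +
      (((k : ℝ) - 2) / ((k : ℝ) - 1) - ((k : ℝ) - 3) / ((k : ℝ) - 2)) * L :=
    ge_of_tendsto' h1 (fun s => limit_ineq hk τ hτ L hL s)
  have hD : 0 < (k : ℝ) ^ 2 - 3 * k + 1 := by nlinarith
  rw [le_div_iff₀ hD]
  have ha : 0 < (k : ℝ) - 2 := by linarith
  have hb : 0 < (k : ℝ) - 1 := by linarith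
  have h3 := mul_le_mul_of_nonneg_left h2 (mul_pos ha hb).le
  have e : ((k : ℝ) - 2) * ((k : ℝ) - 1) * (((k : ℝ) - 3) / ((k : ℝ) - 2) +
      (((k : ℝ) - 2) / ((k : ℝ) - 1) - ((k : ℝ) - 3) / ((k : ℝ) - 2)) * L) =
      ((k : ℝ) - 1) * ((k : ℝ) - 3) + (((k : ℝ) - 2) ^ 2 - ((k : ℝ) - 3) * ((k : ℝ) - 1)) * L := by
    field_simp
  rw [e] at h3
  nlinarith

/-! ### The one-block pattern -/

theorem block_small {m n k : ℕ} (s : Setoid (Fin (m * n))) (hk : 1 ≤ k)
    (hs : ¬ Contains s (⊤ : Setoid (Fin k))) : m * n ≤ (k - 1) * (repB s).card := by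
  classical
  have h := card_le_mul_card_image (f := glob s) (univ : Finset (Fin (m * n))) (k - 1) ?_
  · rw [card_univ, Fintype.card_fin] at h
    refine h.trans (Nat.mul_le_mul_left _ (card_le_card ?_))
    intro z hz
    rw [mem_image] at hz
    obtain ⟨x, -, rfl⟩ := hz
    unfold repB
    rw [mem_filter]
    exact ⟨mem_univ _, glob_glob s x⟩
  · intro z _
    by_contra hcon
    push Not at hcon
    have hcon' : k ≤ ((univ : Finset (Fin (m * n))).filter (fun x => glob s x = z)).card := by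
      omega
    obtain ⟨S, hS, hSc⟩ := exists_subset_card_eq hcon'
    apply hs
    refine ⟨S.orderEmbOfFin hSc, (S.orderEmbOfFin hSc).strictMono, ?_⟩
    intro x y
    have hx := hS (S.orderEmbOfFin_mem hSc x)
    have hy := hS (S.orderEmbOfFin_mem hSc y)
    rw [mem_filter] at hx hy
    refine ⟨fun _ => trivial, fun _ => ?_⟩
    rw [glob_eq_iff, hx.2, hy.2]

theorem top_bound {k : ℕ} (hk : 3 ≤ k) (L : ℝ)
    (hL : Tendsto (F (⊤ : Setoid (Fin k))) atTop (𝓝 L)) : L ≤ 1 - 1 / ((k : ℝ) - 1) := by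
  classical
  have hk3 : (3 : ℝ) ≤ k := by exact_mod_cast hk
  have key : ∀ m : ℕ, 2 ≤ m → F (⊤ : Setoid (Fin k)) m ≤
      Real.log 4 / Real.log m + (1 - 1 / ((k : ℝ) - 1)) := by
    intro m hm
    have hmR : (2 : ℝ) ≤ m := by exact_mod_cast hm
    have hlog : 0 < Real.log m := Real.log_pos (by linarith)
    have hlog4 : 0 ≤ Real.log 4 := Real.log_nonneg (by norm_num)
    set E : ℝ := (1 - 1 / ((k : ℝ) - 1)) * m * Real.log m with hE
    have hfr : 0 ≤ 1 - 1 / ((k : ℝ) - 1) := by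
      rw [sub_nonneg, div_le_one (by linarith)]; linarith
    have hfib : ∀ X Y : Finset (Fin (m * 1)),
        (Nat.card (Fib (m := m) (n := 1) (⊤ : Setoid (Fin k)) X Y) : ℝ) ≤ Real.exp E := by
      intro X Y
      rcases Nat.eq_zero_or_pos (Nat.card (Fib (m := m) (n := 1) (⊤ : Setoid (Fin k)) X Y))
        with h | h
      · rw [h]; simp only [Nat.cast_zero]; positivity
      have hne : Nonempty (Fib (m := m) (n := 1) (⊤ : Setoid (Fin k)) X Y) :=
        (Nat.card_pos_iff.1 h).1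
      obtain ⟨s, hs, hX, hY⟩ := hne
      have hb := block_small s (by omega) hs
      rw [hY] at hb
      have hsub : Y ⊆ X := by
        have := repB_subset s
        rwa [hX, hY] at this
      have hcs : (X \ Y).card = X.card - Y.card := card_sdiff_of_subset hsub
      have hXn : X.card ≤ m * 1 := by
        have := card_le_univ X
        rwa [Fintype.card_fin] at this
      have f1 := fib_one (m := m) (n := 1) (⊤ : Setoid (Fin k)) X Y
      rw [one_pow, one_mul, hcs] at f1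
      have f1' : Nat.card (Fib (m := m) (n := 1) (⊤ : Setoid (Fin k)) X Y) ≤
          m ^ (X.card - Y.card) := by
        refine f1.trans (le_of_eq ?_)
        congr 1
        exact mul_one m
      have hb' : m ≤ (k - 1) * Y.card := (le_of_eq (mul_one m).symm).trans hb
      have hXn' : X.card ≤ m := hXn.trans (le_of_eq (mul_one m))
      have f2 : Nat.card (Fib (m := m) (n := 1) (⊤ : Setoid (Fin k)) X Y) ≤ m ^ (m - Y.card) :=
        f1'.trans (Nat.pow_le_pow_right (by omega) (by omega))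
      have hYm : Y.card ≤ m := (card_le_card hsub).trans hXn'
      have f3 : (Nat.card (Fib (m := m) (n := 1) (⊤ : Setoid (Fin k)) X Y) : ℝ) ≤
          (m : ℝ) ^ (m - Y.card) := by exact_mod_cast f2
      refine f3.trans ?_
      rw [← Real.exp_log (show (0 : ℝ) < (m : ℝ) ^ (m - Y.card) by positivity), Real.log_pow,
        Nat.cast_sub hYm]
      apply Real.exp_le_exp.2
      rw [hE]
      apply mul_le_mul_of_nonneg_right _ hlog.le
      have hbR : (m : ℝ) ≤ ((k : ℝ) - 1) * Y.card := by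
        have : ((m : ℕ) : ℝ) ≤ (((k - 1) * Y.card : ℕ) : ℝ) := by exact_mod_cast hb'
        push_cast [Nat.cast_sub (by omega : 1 ≤ k)] at this
        exact this
      have : (m : ℝ) / ((k : ℝ) - 1) ≤ Y.card := by
        rw [div_le_iff₀ (by linarith)]; linarith
      have e : (1 - 1 / ((k : ℝ) - 1)) * (m : ℝ) = m - m / ((k : ℝ) - 1) := by ring
      rw [e]; linarith
    have hA := A_le (m := m) (n := 1) (⊤ : Setoid (Fin k)) (Real.exp E) (Real.exp_pos _).le hfib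
    rw [mul_one] at hA
    have hE0 : 0 ≤ E := by positivity
    have hlogA : Real.log (A (⊤ : Setoid (Fin k)) m) ≤ E + m * Real.log 4 := by
      rcases Nat.eq_zero_or_pos (A (⊤ : Setoid (Fin k)) m) with h | h
      · rw [h]; simp only [Nat.cast_zero, Real.log_zero]; positivity
      · have h' : (0 : ℝ) < A (⊤ : Setoid (Fin k)) m := by exact_mod_cast h
        have h2 := Real.log_le_log h' hA
        rw [Real.log_mul (Real.exp_pos _).ne' (by positivity), Real.log_exp, Real.log_pow] at h2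
        exact h2
    unfold F
    rw [div_le_iff₀ (by positivity)]
    refine hlogA.trans (le_of_eq ?_)
    rw [hE]
    field_simp
    ring
  have h3 : Tendsto (fun t : ℕ => Real.log 4 / Real.log (t : ℝ) + (1 - 1 / ((k : ℝ) - 1)))
      atTop (𝓝 (0 + (1 - 1 / ((k : ℝ) - 1)))) := by
    apply Tendsto.add_const
    apply Tendsto.div_atTop tendsto_const_nhds
    exact Real.tendsto_log_atTop.comp tendsto_natCast_atTop_atTop
  rw [zero_add] at h3
  exact le_of_tendsto_of_tendsto hL h3 (by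
    filter_upwards [eventually_ge_atTop 2] with t ht
    exact key t ht)

end Pool.Agent.T6.H85.SetPart
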